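import Pool.Agent.Helper18_TNF.Stmts

/-!
Near-far block (TWO): an element of the mapping class group which fixes the classes of the feet, moves
the near classes by combinations of the feet and the dual classes by multiples of v and the feet,
satisfies IsE.
-/

set_option autoImplicit false

namespace Pool.Agent.TNF.H58

open Pool.Agent.TNF Pool.Agent.TOR Pool.Agent.TOR.H59 Pool.Agent.TOR.H29 Pool.Agent.TOR.SA Pool.Agent.TOR96 Pool.Agent.TOR.H58

variable {r g : ℕ}

/-- the form with xf on the left -/
theorem sf_xf_left (i : Fin r) (v : Hh (r + (g + 1))) :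
    sf (xf r g i) v = v (1, Fin.castAdd (g + 1) i) := by
  unfold xf
  rw [sf_single_left]
  rfl

theorem sf_cf_left (i : Fin r) (v : Hh (r + (g + 1))) :
    sf (cf r g i) v = - v (0, Fin.castAdd (g + 1) i) := by
  unfold cf
  rw [sf_single_left]
  rfl

theorem upv_lo (a : Fin 2) (i : Fin r) (u : Hh (g + 1)) :
    upv r (g + 1) u (a, Fin.castAdd (g + 1) i) = 0 := upv_new u (a, i)

theorem vn_upv : vn r g = upv r (g + 1) (Pi.single (1, Fin.last g) 1) := by
  have h := ev_map (m := r) (FreeGroup.of ((1 : Fin 2), Fin.last g))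
  rw [FreeGroup.map.of, ev_of, ev_of] at h
  exact h

theorem castAdd_ne_natAdd (i : Fin r) (j : Fin (g + 1)) :
    Fin.castAdd (g + 1) i ≠ Fin.natAdd r j := by
  intro h
  have := congrArg Fin.val h
  simp at this
  omega

theorem cf_one (i j : Fin r) :
    cf r g j (1, Fin.castAdd (g + 1) i) = if i = j then 1 else 0 := by
  unfold cf
  rw [Pi.single_apply]
  by_cases h : i = j
  · subst h; rw [if_pos rfl, if_pos rfl]
  · rw [if_neg h, if_neg]
    intro h'
    exact h (Fin.castAdd_injective r (g + 1) (congrArg Prod.snd h'))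

theorem cf_zero (a : Fin (r + (g + 1))) (j : Fin r) : cf r g j (0, a) = 0 := by
  unfold cf
  exact Pi.single_eq_of_ne (fun h => absurd (congrArg Prod.fst h) (by simp)) _

theorem xf_one (a : Fin (r + (g + 1))) (j : Fin r) : xf r g j (1, a) = 0 := by
  unfold xf
  exact Pi.single_eq_of_ne (fun h => absurd (congrArg Prod.fst h) (by simp)) _

theorem xf_zero (i j : Fin r) :
    xf r g j (0, Fin.castAdd (g + 1) i) = if i = j then 1 else 0 := by
  unfold xf
  rw [Pi.single_apply]
  by_cases h : i = j
  · subst h; rw [if_pos rfl, if_pos rfl]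
  · rw [if_neg h, if_neg]
    intro h'
    exact h (Fin.castAdd_injective r (g + 1) (congrArg Prod.snd h'))

theorem xf_cf (i j : Fin r) : sf (xf r g i) (cf r g j) = if i = j then 1 else 0 := by
  rw [sf_xf_left, cf_one]

theorem cf_cf (i j : Fin r) : sf (cf r g i) (cf r g j) = 0 := by
  rw [sf_cf_left, cf_zero, neg_zero]

theorem xf_xf (i j : Fin r) : sf (xf r g i) (xf r g j) = 0 := by
  rw [sf_xf_left, xf_one]

theorem cf_xf (i j : Fin r) : sf (cf r g i) (xf r g j) = if i = j then -1 else 0 := by
  rw [sf_cf_left, xf_zero]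
  split_ifs <;> simp

theorem xf_upv (i : Fin r) (u : Hh (g + 1)) : sf (xf r g i) (upv r (g + 1) u) = 0 := by
  rw [sf_xf_left, upv_lo]

theorem cf_upv (i : Fin r) (u : Hh (g + 1)) : sf (cf r g i) (upv r (g + 1) u) = 0 := by
  rw [sf_cf_left, upv_lo, neg_zero]

theorem upv_xf (i : Fin r) (u : Hh (g + 1)) : sf (upv r (g + 1) u) (xf r g i) = 0 := by
  rw [sf_swap, xf_upv, neg_zero]

theorem upv_cf (i : Fin r) (u : Hh (g + 1)) : sf (upv r (g + 1) u) (cf r g i) = 0 := by
  rw [sf_swap, cf_upv, neg_zero]

/-- the form as an additive homomorphism in the second variable -/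
def sfR {n : ℕ} (u : Hh n) : Hh n →+ ℤ where
  toFun v := sf u v
  map_zero' := sf_zero_right u
  map_add' v w := sf_add_right u v w

def sfL {n : ℕ} (v : Hh n) : Hh n →+ ℤ where
  toFun u := sf u v
  map_zero' := sf_zero_left v
  map_add' u w := sf_add_left u w v

theorem sf_sum_right {n : ℕ} {ι : Type} (s : Finset ι) (u : Hh n) (f : ι → Hh n) :
    sf u (∑ i ∈ s, f i) = ∑ i ∈ s, sf u (f i) := map_sum (sfR u) f s

theorem sf_sum_left {n : ℕ} {ι : Type} (s : Finset ι) (u : Hh n) (f : ι → Hh n) :
    sf (∑ i ∈ s, f i) u = ∑ i ∈ s, sf (f i) u := map_sum (sfL u) f s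

theorem sf_comb_right (i : Fin r) (t : Fin r → ℤ) :
    sf (xf r g i) (∑ j, t j • cf r g j) = t i := by
  rw [sf_sum_right]
  simp only [sf_smul_right, xf_cf]
  simp

theorem sf_comb_left (i : Fin r) (t : Fin r → ℤ) :
    sf (∑ j, t j • cf r g j) (xf r g i) = - t i := by
  rw [sf_swap, sf_comb_right]

theorem comb_zero {u : Hh (r + (g + 1))} (h : ∀ j, sf u (cf r g j) = 0) (t : Fin r → ℤ) :
    sf u (∑ j, t j • cf r g j) = 0 := by
  rw [sf_sum_right]
  simp only [sf_smul_right, h, mul_zero, Finset.sum_const_zero]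

theorem comb_zero' {u : Hh (r + (g + 1))} (h : ∀ j, sf u (cf r g j) = 0) (t : Fin r → ℤ) :
    sf (∑ j, t j • cf r g j) u = 0 := by
  rw [sf_swap, comb_zero h, neg_zero]

theorem vn_cf (j : Fin r) : sf (vn r g) (cf r g j) = 0 := by
  rw [vn_upv, upv_cf]

theorem vn_xf (j : Fin r) : sf (vn r g) (xf r g j) = 0 := by
  rw [vn_upv, upv_xf]

theorem xf_vn (j : Fin r) : sf (xf r g j) (vn r g) = 0 := by
  rw [vn_upv, xf_upv]

theorem cf_vn (j : Fin r) : sf (cf r g j) (vn r g) = 0 := by
  rw [vn_upv, cf_upv]

/-- the criterion -/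
theorem isE_of {φ : St (r + (g + 1))} {m : Fin r → ℤ} {σ : Fin r → Fin r → ℤ}
    (hA : ∀ i, hact φ (cf r g i) = cf r g i)
    (hB : ∀ u : Hh (g + 1), ∃ t : Fin r → ℤ,
      hact φ (upv r (g + 1) u) = upv r (g + 1) u + ∑ i, t i • cf r g i)
    (hC : ∀ i, hact φ (xf r g i) = xf r g i + m i • vn r g + ∑ j, σ i j • cf r g j) :
    IsE r g m σ φ := by
  -- the coefficients for the near classes
  have hB' : ∀ u : Hh (g + 1), hact φ (upv r (g + 1) u) = upv r (g + 1) u +
      sf (upv r (g + 1) u) (vn r g) • ∑ i, m i • cf r g i := by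
    intro u
    obtain ⟨t, ht⟩ := hB u
    rw [ht, Finset.smul_sum]
    congr 1
    refine Finset.sum_congr rfl fun i _ => ?_
    rw [smul_smul]
    congr 1
    have h := sf_hact φ (upv r (g + 1) u) (xf r g i)
    rw [ht, hC, upv_xf, sf_add_left, sf_add_right, sf_add_right, sf_add_right, sf_add_right,
      upv_xf, sf_smul_right, comb_zero (fun j => upv_cf j u), sf_comb_left, sf_smul_right,
      comb_zero' (fun j => vn_cf j), comb_zero (u := ∑ i, t i • cf r g i) (fun j =>
        comb_zero' (fun k => cf_cf j k) _)] at h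
    linarith
  -- symmetry
  have hsym : ∀ i j, σ i j = σ j i := by
    intro i j
    have h := sf_hact φ (xf r g i) (xf r g j)
    rw [hC, hC, xf_xf, sf_add_left, sf_add_left, sf_add_right, sf_add_right, sf_add_right,
      sf_add_right, sf_add_right, sf_add_right, xf_xf, sf_smul_right, xf_vn, sf_comb_right,
      sf_smul_left, sf_smul_left, sf_smul_left, vn_xf, sf_smul_right, sf_self,
      comb_zero (fun k => vn_cf k), sf_comb_left, sf_smul_right, comb_zero' (fun k => vn_cf k),
      comb_zero (u := ∑ k, σ i k • cf r g k) (fun j => comb_zero' (fun k => cf_cf j k) _)] at h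
    linarith
  refine ⟨hsym, ?_⟩
  -- the right hand side as a homomorphism
  let L : Hh (r + (g + 1)) := ∑ i, m i • cf r g i
  let F : Hh (r + (g + 1)) →+ Hh (r + (g + 1)) :=
    { toFun := fun v => v + sf v (vn r g) • L + sf v L • vn r g +
        ∑ i, ∑ j, (σ i j * sf v (cf r g i)) • cf r g j
      map_zero' := by
        simp only [sf_zero_left, mul_zero, zero_smul, Finset.sum_const_zero, add_zero]
      map_add' := by
        intro v w
        simp only [sf_add_left, mul_add, add_smul, Finset.sum_add_distrib]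
        abel }
  have hF : hactH φ = F := by
    refine AddMonoidHom.functions_ext' _ _ _ fun l => AddMonoidHom.ext_int ?_
    change hact φ (Pi.single l 1) = Pi.single l 1 + sf (Pi.single l 1) (vn r g) • L +
      sf (Pi.single l 1) L • vn r g +
        ∑ i, ∑ j, (σ i j * sf (Pi.single l 1) (cf r g i)) • cf r g j
    rcases split_eq (m := r) (r := g + 1) l with ⟨l', rfl⟩ | ⟨⟨a, i⟩, rfl⟩
    · have e : (Pi.single (hiE r (g + 1) l') 1 : Hh (r + (g + 1))) =
          upv r (g + 1) (Pi.single l' 1) := by
        have h := ev_map (m := r) (FreeGroup.of l')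
        rw [FreeGroup.map.of, ev_of, ev_of] at h
        exact h
      rw [e, hB']
      have h1 : sf (upv r (g + 1) (Pi.single l' 1)) L = 0 := comb_zero (fun j => upv_cf j _) _
      rw [h1, zero_smul, add_zero]
      simp only [upv_cf, mul_zero, zero_smul, Finset.sum_const_zero, add_zero]
      rfl
    · fin_cases a
      · have e : (Pi.single (loE r (g + 1) (0, i)) 1 : Hh (r + (g + 1))) = xf r g i := rfl
        change hact φ (Pi.single (loE r (g + 1) (0, i)) 1) = _
        rw [e, hC]
        have h1 : sf (xf r g i) L = m i := sf_comb_right i m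
        have e' : (Pi.single (loE r (g + 1) ((fun i => i) ⟨0, by norm_num⟩, i)) 1 :
            Hh (r + (g + 1))) = xf r g i := rfl
        simp only [e']
        rw [xf_vn, h1, zero_smul, add_zero]
        congr 1
        simp only [xf_cf]
        symm
        rw [Finset.sum_eq_single i]
        · simp only [if_true, mul_one]
        · intro j _ hj
          simp only [if_neg (Ne.symm hj), mul_zero, zero_smul, Finset.sum_const_zero]
        · intro h; exact absurd (Finset.mem_univ _) h
      · have e' : (Pi.single (loE r (g + 1) ((fun i => i) ⟨1, by norm_num⟩, i)) 1 :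
            Hh (r + (g + 1))) = cf r g i := rfl
        simp only [e']
        rw [hA, cf_vn]
        have h1 : sf (cf r g i) L = 0 := comb_zero (fun j => cf_cf i j) m
        rw [h1]
        simp only [cf_cf, mul_zero, zero_smul, Finset.sum_const_zero, add_zero]
  intro x
  rw [← hact_ev]
  exact DFunLike.congr_fun hF (ev x)

end Pool.Agent.TNF.H58
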