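import Pool.Agent.Helper58_TNF.IsE
import Pool.Agent.Helper76_TOR.TwX

/-!
Near-far block, tower, section 8c: transport along the isomorphism Θ of the closed-up surface with the
standard surface; action on homology.
-/

set_option autoImplicit false

namespace Pool.Agent.TNF.H58

open Pool.Agent.TNF Pool.Agent.TOR Pool.Agent.TOR.H59 Pool.Agent.TOR.H29 Pool.Agent.TOR.SA
open Pool.Agent.TOR96 Pool.Agent.TOR.H58 Pool.Agent.TOW Pool.Agent.TST

/-- words in the hole letters -/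
def hs {α η : Type} (hl : η → α) : Subgroup (FreeGroup (α ⊕ η)) :=
  Subgroup.closure (Set.range fun h => FreeGroup.of (Sum.inl (hl h)))

/-- identification of the closed-up surface with the standard surface -/
structure Tht (K g : ℕ) {α η : Type} (hl : η → α) (w : FreeGroup α) (zz : FreeGroup (α ⊕ η))
    (nr : Fin 2 × Fin (g + 1) → α) where
  Th : FF (K + (g + 1)) ≃* FreeGroup (α ⊕ η)
  ix : Fin K ≃ η
  tz : Th (zeta (K + (g + 1))) = zz * jn η w
  far0 : ∀ i, ∃ d ∈ hs hl, Th (FreeGroup.of (0, Fin.castAdd (g + 1) i)) =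
    d * FreeGroup.of (Sum.inr (ix i)) * d⁻¹
  far1 : ∀ i, ∃ d ∈ hs hl, Th (FreeGroup.of (1, Fin.castAdd (g + 1) i)) =
    d * (FreeGroup.of (Sum.inl (hl (ix i))))⁻¹ * d⁻¹
  near : ∃ d ∈ hs hl, ∀ l, Th (FreeGroup.of (hiE K (g + 1) l)) =
    d * FreeGroup.of (Sum.inl (nr l)) * d⁻¹

/-- class supported on the holes -/
def Xs {α η : Type} (hl : η → α) (e : α → ℤ) : Prop := ∀ a, (∀ h, hl h ≠ a) → e a = 0

/-- combinations of the feet -/
def CF (K g : ℕ) : AddSubgroup (Hh (K + (g + 1))) := AddSubgroup.closure (Set.range (cf K g))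

theorem CF_exists {K g : ℕ} {v : Hh (K + (g + 1))} (h : v ∈ CF K g) :
    ∃ t : Fin K → ℤ, v = ∑ i, t i • cf K g i := by
  induction h using AddSubgroup.closure_induction with
  | mem x hx =>
    obtain ⟨i, rfl⟩ := hx
    exact ⟨Pi.single i 1, by
      rw [Finset.sum_eq_single i (fun j _ hj => by rw [Pi.single_eq_of_ne hj, zero_smul])
        (fun h => absurd (Finset.mem_univ _) h), Pi.single_eq_same, one_smul]⟩
  | zero => exact ⟨0, by simp⟩
  | add x y _ _ hx hy =>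
    obtain ⟨t, rfl⟩ := hx
    obtain ⟨t', rfl⟩ := hy
    exact ⟨t + t', by simp only [Pi.add_apply, add_smul, Finset.sum_add_distrib]⟩
  | neg x _ hx =>
    obtain ⟨t, rfl⟩ := hx
    exact ⟨-t, by simp only [Pi.neg_apply, neg_smul, Finset.sum_neg_distrib]⟩

namespace Tht

variable {K g : ℕ} {α η : Type} {hl : η → α} {w : FreeGroup α} {zz : FreeGroup (α ⊕ η)}
  {nr : Fin 2 × Fin (g + 1) → α} (T : Tht K g hl w zz nr)

/-- classes in the standard surface -/
def E (u : FreeGroup (α ⊕ η)) : Hh (K + (g + 1)) := ev (T.Th.symm u)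

theorem E_mul (u v : FreeGroup (α ⊕ η)) : T.E (u * v) = T.E u + T.E v := by
  unfold E
  rw [map_mul, ev_mul]

theorem E_inv (u : FreeGroup (α ⊕ η)) : T.E u⁻¹ = - T.E u := by
  unfold E
  rw [map_inv, ev_inv]

theorem E_one : T.E 1 = 0 := by
  unfold E
  rw [map_one, ev_one]

theorem E_conj (d u : FreeGroup (α ⊕ η)) : T.E (d * u * d⁻¹) = T.E u := by
  rw [E_mul, E_mul, E_inv]
  abel

theorem E_Th (x : FF (K + (g + 1))) : T.E (T.Th x) = ev x := by
  unfold E
  rw [MulEquiv.symm_apply_apply]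

theorem E_inr (i : Fin K) : T.E (FreeGroup.of (Sum.inr (T.ix i))) = xf K g i := by
  obtain ⟨d, -, hd⟩ := T.far0 i
  have h := T.E_Th (FreeGroup.of (0, Fin.castAdd (g + 1) i))
  rw [hd, E_conj, ev_of] at h
  exact h

theorem E_hole (i : Fin K) : T.E (FreeGroup.of (Sum.inl (hl (T.ix i)))) = - cf K g i := by
  obtain ⟨d, -, hd⟩ := T.far1 i
  have h := T.E_Th (FreeGroup.of (1, Fin.castAdd (g + 1) i))
  rw [hd, E_conj, E_inv, ev_of] at h
  rw [← neg_neg (T.E _), h]
  rfl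

theorem E_hole' (h : η) : T.E (FreeGroup.of (Sum.inl (hl h))) ∈ CF K g := by
  have h1 := T.E_hole (T.ix.symm h)
  rw [Equiv.apply_symm_apply] at h1
  rw [h1]
  exact (CF K g).neg_mem (AddSubgroup.subset_closure ⟨_, rfl⟩)

theorem Th_near : ∃ d ∈ hs hl, ∀ x : FF (g + 1),
    T.Th (FreeGroup.map (hiE K (g + 1)) x) = d * jn η (FreeGroup.map nr x) * d⁻¹ := by
  obtain ⟨d, hd, h⟩ := T.near
  refine ⟨d, hd, fun x => ?_⟩
  have : T.Th.toMonoidHom.comp (FreeGroup.map (hiE K (g + 1))) =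
      (MulAut.conj d).toMonoidHom.comp ((jn η).comp (FreeGroup.map nr)) := by
    refine FreeGroup.ext_hom _ _ fun l => ?_
    change T.Th (FreeGroup.map (hiE K (g + 1)) (FreeGroup.of l)) =
      d * jn η (FreeGroup.map nr (FreeGroup.of l)) * d⁻¹
    rw [mof, mof, mof, h]
  exact DFunLike.congr_fun this x

theorem E_near (x : FF (g + 1)) : T.E (jn η (FreeGroup.map nr x)) = upv K (g + 1) (ev x) := by
  obtain ⟨d, -, h⟩ := T.Th_near
  rw [← T.E_conj d, ← h, E_Th, ev_map]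

theorem E_b : T.E (FreeGroup.of (Sum.inl (nr (1, Fin.last g)))) = vn K g := by
  have h := T.E_near (FreeGroup.of (1, Fin.last g))
  rw [mof, mof, ev_of, ← vn_upv] at h
  exact h

variable [Fintype α] [DecidableEq α]

theorem E_jn (v : FreeGroup α) :
    T.E (jn η v) = ∑ a, ev v a • T.E (FreeGroup.of (Sum.inl a)) := by
  induction v using FreeGroup.induction_on with
  | C1 =>
    rw [map_one, E_one, ev_one]
    simp
  | of b =>
    rw [mof, ev_of, Finset.sum_eq_single b (fun a _ ha => by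
      rw [Pi.single_eq_of_ne ha, zero_smul]) (fun h => absurd (Finset.mem_univ _) h),
      Pi.single_eq_same, one_smul]
  | inv_of b h =>
    rw [map_inv, E_inv, ev_inv, h]
    simp only [Pi.neg_apply, neg_smul, Finset.sum_neg_distrib]
  | mul x y hx hy =>
    rw [map_mul, E_mul, ev_mul, hx, hy]
    simp only [Pi.add_apply, add_smul, Finset.sum_add_distrib]

omit [DecidableEq α] in
/-- classes supported on the holes are combinations of the feet -/
theorem E_Xs {e : α → ℤ} (he : Xs hl e) :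
    ∑ a, e a • T.E (FreeGroup.of (Sum.inl a)) ∈ CF K g := by
  refine (CF K g).sum_mem fun a _ => ?_
  by_cases h : ∃ h, hl h = a
  · obtain ⟨h, rfl⟩ := h
    exact (CF K g).zsmul_mem (T.E_hole' h) _
  · push Not at h
    rw [he a h, zero_smul]
    exact (CF K g).zero_mem

omit [DecidableEq α] [Fintype α] in
/-- transport of an automorphism of the closed-up surface -/
theorem tr_mem (Φ : MulAut (FreeGroup (α ⊕ η))) (h : Φ (zz * jn η w) = zz * jn η w) :
    MulAut.congr T.Th.symm Φ ∈ St (K + (g + 1)) := by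
  rw [mem_St]
  change T.Th.symm (Φ (T.Th (zeta (K + (g + 1))))) = zeta (K + (g + 1))
  rw [T.tz, h, ← T.tz, MulEquiv.symm_apply_apply]

/-- the transported element -/
def tr (Φ : MulAut (FreeGroup (α ⊕ η))) (h : Φ (zz * jn η w) = zz * jn η w) :
    St (K + (g + 1)) := ⟨MulAut.congr T.Th.symm Φ, T.tr_mem Φ h⟩

omit [DecidableEq α] [Fintype α] in
theorem app_tr (Φ : MulAut (FreeGroup (α ⊕ η))) (h : Φ (zz * jn η w) = zz * jn η w)
    (x : FF (K + (g + 1))) : app (T.tr Φ h) x = T.Th.symm (Φ (T.Th x)) := rfl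

omit [DecidableEq α] [Fintype α] in
theorem hact_tr (Φ : MulAut (FreeGroup (α ⊕ η))) (h : Φ (zz * jn η w) = zz * jn η w)
    (u : FreeGroup (α ⊕ η)) : hact (T.tr Φ h) (T.E u) = T.E (Φ u) := by
  unfold E
  rw [hact_ev, app_tr, MulEquiv.apply_symm_apply]

/-- **action on homology** -/
theorem isE_tr {t : MulAut (FreeGroup α)} {Φ : MulAut (FreeGroup (α ⊕ η))}
    (hΦ : Φ (zz * jn η w) = zz * jn η w) {f : η → FreeGroup α} {m : η → ℤ}
    (h1 : ∀ u, Φ (jn η u) = jn η (t u))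
    (h2 : ∀ h, Φ (FreeGroup.of (Sum.inr h)) = FreeGroup.of (Sum.inr h) * (jn η (f h))⁻¹)
    (h3 : ∀ h, ∃ c, t (FreeGroup.of (hl h)) = c * FreeGroup.of (hl h) * c⁻¹)
    (h4 : ∀ u, Xs hl (ev (t u) - ev u))
    (h5 : ∀ h, Xs hl (ev (f h) - m h • ev (FreeGroup.of (nr (1, Fin.last g))))) :
    ∃ sig, IsE K g (fun i => - m (T.ix i)) sig (T.tr Φ hΦ) := by
  have key : ∀ i, ∃ s : Fin K → ℤ, hact (T.tr Φ hΦ) (xf K g i) =
      xf K g i + (- m (T.ix i)) • vn K g + ∑ j, s j • cf K g j := by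
    intro i
    have h6 := T.E_Xs (h5 (T.ix i))
    simp only [Pi.sub_apply, Pi.smul_apply, sub_smul, smul_assoc, Finset.sum_sub_distrib,
      ← Finset.smul_sum] at h6
    rw [← T.E_jn, ← T.E_jn, mof, E_b] at h6
    obtain ⟨s, hs⟩ := CF_exists h6
    refine ⟨-s, ?_⟩
    have h7 := T.hact_tr Φ hΦ (FreeGroup.of (Sum.inr (T.ix i)))
    rw [h2, E_mul, E_inv, E_inr] at h7
    rw [h7]
    simp only [Pi.neg_apply, neg_smul, Finset.sum_neg_distrib, ← hs]
    abel
  choose s hs using key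
  refine ⟨s, isE_of (fun i => ?_) (fun u => ?_) hs⟩
  · have h7 := T.hact_tr Φ hΦ (FreeGroup.of (Sum.inl (hl (T.ix i))))⁻¹
    obtain ⟨c, hc⟩ := h3 (T.ix i)
    have h8 : (FreeGroup.of (Sum.inl (hl (T.ix i))) : FreeGroup (α ⊕ η)) =
        jn η (FreeGroup.of (hl (T.ix i))) := by rw [mof]
    rw [map_inv, E_inv, E_inv, h8, h1, hc, map_mul, map_mul, map_inv, E_conj, ← h8, E_hole,
      neg_neg] at h7
    exact h7
  · obtain ⟨x, rfl⟩ := ev_surj u
    have h6 := T.E_Xs (h4 (FreeGroup.map nr x))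
    simp only [Pi.sub_apply, sub_smul, Finset.sum_sub_distrib] at h6
    rw [← T.E_jn, ← T.E_jn] at h6
    obtain ⟨s', hs'⟩ := CF_exists h6
    refine ⟨s', ?_⟩
    rw [← T.E_near, hact_tr, h1, ← hs']
    abel

omit [DecidableEq α] [Fintype α] in
theorem fix_hs {Φ : MulAut (FreeGroup (α ⊕ η))}
    (h : ∀ h, Φ (FreeGroup.of (Sum.inl (hl h))) = FreeGroup.of (Sum.inl (hl h)))
    {d : FreeGroup (α ⊕ η)} (hd : d ∈ hs hl) : Φ d = d := by
  refine fix_closure (f := Φ.toMonoidHom) ?_ hd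
  rintro _ ⟨h', rfl⟩
  exact h h'

omit [DecidableEq α] [Fintype α] in
/-- **extensions of near mapping classes** -/
theorem tr_up {Φ : MulAut (FreeGroup (α ⊕ η))} (hΦ : Φ (zz * jn η w) = zz * jn η w)
    (φ : St (g + 1))
    (h1 : ∀ l, Φ (FreeGroup.of (Sum.inl (nr l))) =
      jn η (FreeGroup.map nr (app φ (FreeGroup.of l))))
    (h2 : ∀ h, Φ (FreeGroup.of (Sum.inl (hl h))) = FreeGroup.of (Sum.inl (hl h)))
    (h3 : ∀ h, Φ (FreeGroup.of (Sum.inr h)) = FreeGroup.of (Sum.inr h)) :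
    T.tr Φ hΦ = up K (g + 1) φ := by
  refine Subtype.ext (MulEquiv.ext fun x => ?_)
  have : ((T.tr Φ hΦ).1 : _ ≃* _).toMonoidHom = ((up K (g + 1) φ).1 : _ ≃* _).toMonoidHom := by
    refine FreeGroup.ext_hom _ _ fun l => ?_
    change app (T.tr Φ hΦ) (FreeGroup.of l) = app (up K (g + 1) φ) (FreeGroup.of l)
    rw [app_tr]
    apply T.Th.injective
    rw [MulEquiv.apply_symm_apply]
    rcases split_eq (m := K) (r := g + 1) l with ⟨l', rfl⟩ | ⟨⟨a, i⟩, rfl⟩
    · obtain ⟨d, hd, h⟩ := T.Th_near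
      have e : (FreeGroup.of (hiE K (g + 1) l') : FF (K + (g + 1))) =
          FreeGroup.map (hiE K (g + 1)) (FreeGroup.of l') := by rw [mof]
      rw [e, up_map, h, h, map_mul, map_mul, map_inv, fix_hs h2 hd, mof, mof, h1]
    · rw [up_of]
      have ha : a = 0 ∨ a = 1 := by fin_cases a <;> simp
      rcases ha with rfl | rfl
      · obtain ⟨d, hd, h⟩ := T.far0 i
        have h' : T.Th (FreeGroup.of (loE K (g + 1) (0, i))) =
          d * FreeGroup.of (Sum.inr (T.ix i)) * d⁻¹ := h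
        rw [h', map_mul, map_mul, map_inv, fix_hs h2 hd, h3]
      · obtain ⟨d, hd, h⟩ := T.far1 i
        have h' : T.Th (FreeGroup.of (loE K (g + 1) (1, i))) =
          d * (FreeGroup.of (Sum.inl (hl (T.ix i))))⁻¹ * d⁻¹ := h
        rw [h', map_mul, map_mul, map_inv, map_inv, fix_hs h2 hd, h2]
  exact DFunLike.congr_fun this x

end Tht

end Pool.Agent.TNF.H58
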